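import Pool.Agent.Zk84.MissingFaces.Proof

/-!
# The equality case of the conjectured lower bounds on the `g`-numbers of spheres with small missing faces

The definitions are in `Pool.Agent.Zk84.MissingFaces.Defs`, the proof in
`Pool.Agent.Zk84.MissingFaces.Proof`.
-/

set_option autoImplicit false

open Pool.Agent.Zk84.MissingFaces

namespace Pool.Agent.Results.MP_94a3a7_co.UniqueMinimizer

/-- **The equality case of the conjectured inequalities `g_j(Δ) ≥ g_j(K(i, d-1))`.** Let
`d = q * i + r` with `1 ≤ r ≤ i`. Every `(d-1)`-sphere `Δ ∈ S(i, d-1)` with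
`g_j(Δ) = g_j(K(i, d-1))` for all `0 ≤ j ≤ d / 2` is isomorphic to `K(i, d-1)`. -/
theorem result (i q r : ℕ) (hr : 1 ≤ r) (hri : r ≤ i) (V : Type) [Fintype V] [DecidableEq V]
    (Δ : Finset (Finset V)) (hΔ : InClassS i (q * i + r) Δ)
    (hg : ∀ j ≤ (q * i + r) / 2, gNum Δ (q * i + r) j = gNum (K q i r) (q * i + r) j) :
    Isomorphic Δ (K q i r) :=
  main i q r hr hri V Δ hΔ hg

end Pool.Agent.Results.MP_94a3a7_co.UniqueMinimizer
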